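import Mathlib
import Pool.Agent.H819.Down3

set_option autoImplicit false

open MeasureTheory

/-- Quantitative non-concentration at `0` with the exponent `κ = 2 - log 3 / log 2 < 0.4151`, for
EVERY probability measure `μ` on `R/Z` invariant under `x ↦ p x` and `x ↦ q x`, where
`p = u^k v^l`, `q = u^c v^d` with `u, v ≥ 2` coprime and `k d ≠ l c` (for instance `p, q ≥ 2`
coprime): there are `ρ > 0` and `C`, depending only on `p, q`, such that for every `t ≥ 1` the mass
outside the ball of radius `exp (-t)` about `0` is at most `C t^κ` times the mass outside the ball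
of radius `ρ`. If `p, q` are coprime one can take `ρ = 1 / (1 + max p q)`. -/
theorem Pool.Agent.Results.MP_96e181_an.GasketNonConcentration.result :
    ∀ u v k l c d p q : ℕ, 2 ≤ u → 2 ≤ v → Nat.Coprime u v → p = u ^ k * v ^ l →
      q = u ^ c * v ^ d → k * d ≠ l * c →
      ∃ ρ C : ℝ, 0 < ρ ∧ (Nat.Coprime p q → ρ = 1 / (1 + max (p : ℝ) (q : ℝ))) ∧
        ∀ μ : Measure UnitAddCircle, IsProbabilityMeasure μ →
          MeasurePreserving (fun x : UnitAddCircle => p • x) μ μ →
          MeasurePreserving (fun x : UnitAddCircle => q • x) μ μ →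
          ∀ t : ℝ, 1 ≤ t →
            μ.real {x : UnitAddCircle | Real.exp (-t) ≤ ‖x‖} ≤
              C * t ^ (2 - Real.log 3 / Real.log 2) * μ.real {x : UnitAddCircle | ρ ≤ ‖x‖} := by
  intro u v k l c d p q hu hv huv hp hq hne
  have e : (2 : ℝ) - Real.log (((2 : ℕ) : ℝ) + 1) / Real.log ((2 : ℕ) : ℝ)
      = 2 - Real.log 3 / Real.log 2 := by norm_num
  have h : Pool.Agent.H819.TwoGen p q := ⟨u, v, k, l, c, d, hu, hv, huv, hp, hq, hne⟩
  by_cases hpq : Nat.Coprime p q
  · set r : ℝ := 1 / (1 + max (p : ℝ) (q : ℝ)) with hr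
    have hmax : 0 < 1 + max (p : ℝ) (q : ℝ) := by positivity
    have h0 : 0 < r := by positivity
    have hrp : ((p : ℝ) + 1) * r ≤ 1 := by
      rw [hr, mul_one_div, div_le_one hmax]
      have := le_max_left (p : ℝ) (q : ℝ)
      linarith
    have hrq : ((q : ℝ) + 1) * r ≤ 1 := by
      rw [hr, mul_one_div, div_le_one hmax]
      have := le_max_right (p : ℝ) (q : ℝ)
      linarith
    obtain ⟨c, hc, hG⟩ := Pool.Agent.H819.gasket_growth h.two_le_left h.two_le_right hpq h0 hrp hrq
    obtain ⟨D, hD⟩ := Pool.Agent.H819.main_of_growth h.two_le_left h.two_le_right hrp le_rfl hc.le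
      (r' := r) hG
    refine ⟨r, D, h0, fun _ => rfl, fun μ h1 h2 h3 t ht => ?_⟩
    rw [← e]
    exact hD μ h1 h2 h3 t ht
  · obtain ⟨r, r', c0, hr', hrp, hc, hG⟩ := h.growth
    obtain ⟨D, hD⟩ := Pool.Agent.H819.main_of_growth h.two_le_left h.two_le_right hrp le_rfl hc.le hG
    refine ⟨r', D, hr', fun hco => absurd hco hpq, fun μ h1 h2 h3 t ht => ?_⟩
    rw [← e]
    exact hD μ h1 h2 h3 t ht
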