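import Mathlib
import Pool.Agent.H847R3.XpXqF

set_option autoImplicit false

open MeasureTheory Filter Topology

/-- Let `p, q ≥ 2` be multiplicatively independent and let `μ, ν` be probability measures on `R/Z`
invariant under `x ↦ p x` and `x ↦ q x`.  Let `f` be a Borel map of the circle such that for `μ`-almost
every `x` there are nonzero integers `a, b` and a pair `(θ, m)` of a fixed countable set, with `θ`
irrational and all `m k` of the form `p ^ i * q ^ j`, such that `m k (b f(x) - a x) → θ` in `R/Z` (for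
instance `f x = x + θ`, or `b f(x) = a x + θ`, with `m k = 1`).  Then the image of `μ` under `f` is
singular to `ν` as soon as `μ` or `ν` is singular to Lebesgue measure, and `μ` is Lebesgue measure if
its image under `f` is absolutely continuous with respect to `ν`. -/
theorem Pool.Agent.Results.MP_96e181_an.IrrationalTranslates.result :
    ∀ p q : ℕ, 2 ≤ p → 2 ≤ q → Irrational (Real.log (p : ℝ) / Real.log (q : ℝ)) →
    ∀ μ ν : Measure UnitAddCircle, IsProbabilityMeasure μ → IsProbabilityMeasure ν →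
      MeasurePreserving (fun x : UnitAddCircle => p • x) μ μ →
      MeasurePreserving (fun x : UnitAddCircle => q • x) μ μ →
      MeasurePreserving (fun x : UnitAddCircle => p • x) ν ν →
      MeasurePreserving (fun x : UnitAddCircle => q • x) ν ν →
    ∀ C : Set (ℝ × (ℕ → ℕ)), C.Countable →
      (∀ c ∈ C, Irrational c.1 ∧ ∀ k : ℕ, ∃ i j : ℕ, c.2 k = p ^ i * q ^ j) →
    ∀ f : UnitAddCircle → UnitAddCircle, Measurable f →
      (∀ᵐ x ∂μ, ∃ a b : ℤ, a ≠ 0 ∧ b ≠ 0 ∧ ∃ c ∈ C,
        Tendsto (fun k => c.2 k • (b • f x - a • x)) atTop (𝓝 (c.1 : UnitAddCircle))) →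
      ((μ ⟂ₘ volume ∨ ν ⟂ₘ volume) → μ.map f ⟂ₘ ν) ∧ (μ.map f ≪ ν → μ = volume) := by
  intro p q hp hq hirr μ ν hμ hν hμp hμq hνp hνq C hC hC' f hf hfC
  exact ⟨fun hsing => Pool.Agent.H847R3.XpXq.maps hp hq hirr hμp hμq hνp hνq hsing hC hC' hf hfC,
    fun hac => Pool.Agent.H847R3.XpXq.rigid hp hq hirr hμp hμq hνp hνq hC hC' hf hfC hac⟩
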