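import Pool.Agent.H793R3.Fur.B

set_option autoImplicit false

open MeasureTheory Filter Topology Pool.Agent.H793R3.Fur

/-!
# Ergodic counterexamples to Furstenberg's conjecture accumulate at Lebesgue measure

`Cex p q μ` says that `μ` is an atomless probability measure on the circle which is invariant under
`x ↦ p x` and `x ↦ q x`, ergodic for the joint action, and different from Lebesgue measure.
-/

/-- If there is an ergodic counterexample then every weak-* neighbourhood of Lebesgue measure
contains infinitely many of them. -/
theorem Pool.Agent.Results.MP_96e181_an.LocalForm.result (p q : ℕ) (hp : 2 ≤ p)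
    (h : ∃ μ : Measure UnitAddCircle, Cex p q μ) (M : ℤ) (ε : ℝ) (hε : 0 < ε) :
    {μ : Measure UnitAddCircle | Cex p q μ ∧ ∀ m : ℤ, m ≠ 0 → |m| ≤ M →
      ‖∫ x, fourier m x ∂μ‖ < ε}.Infinite :=
  infinite_near hp M hε h
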