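import Pool.Agent.H793R3.Fur.G

set_option autoImplicit false

open MeasureTheory Filter Topology Pool.Agent.H793R3.Fur

/-!
# Ergodic counterexamples to Furstenberg's conjecture: uncountably many or a gap

`ECex p q μ` says that `μ` is an atomless probability measure on the circle which is invariant under
`x ↦ p x` and `x ↦ q x`, ergodic for the joint action, and different from Lebesgue measure.

We show that if the Fourier coefficients of nonzero index of one such `μ` have supremum one in
absolute value, then every weak-* neighbourhood of `μ`, and every weak-* neighbourhood of Lebesgue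
measure, contains uncountably many of them.  The measures are the images of `μ` under the maps
`x ↦ n x + ∑ ε_i k_i x`, where `k_i x → 0` quickly, and a Baire category argument and the mean
ergodic theorem show that there are uncountably many different ones.
-/

theorem Pool.Agent.Results.MP_96e181_an.RigidCounterexamples.result (p q : ℕ) (hp : 2 ≤ p)
    (hq : 2 ≤ q) (μ : Measure UnitAddCircle) (h : ECex p q μ)
    (hs : ∀ η : ℝ, η < 1 → ∃ k : ℤ, k ≠ 0 ∧ η < ‖∫ x, fourier k x ∂μ‖)
    (M : ℤ) (ε : ℝ) (hε : 0 < ε) :
    ¬ {ν : Measure UnitAddCircle | ECex p q ν ∧ ∀ m : ℤ, |m| ≤ M →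
      ‖∫ x, fourier m x ∂ν - ∫ x, fourier m x ∂μ‖ < ε}.Countable ∧
    ¬ {ν : Measure UnitAddCircle | ECex p q ν ∧ ∀ m : ℤ, m ≠ 0 → |m| ≤ M →
      ‖∫ x, fourier m x ∂ν‖ < ε}.Countable := by
  have := h.prob
  have hr := rigid_of_sup hp h.invp hs
  exact ⟨uncountable_near hp (by omega) h hr M hε, uncountable_leb hp (by omega) h hr M hε⟩
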